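import Mathlib
import Pool.Agent.Lib.MP_2cc432_al.Torsion

/-!
# Torsion in the profinite Grothendieck–Teichmüller group
-/

namespace Pool.Agent.Results.MP_2cc432_al.TorsionConjugate

open Pool.Agent.GTT

/-- Every nontrivial element of finite order of the profinite Grothendieck–Teichmüller group is
conjugate in this group to `(-1, 1)`. -/
theorem result (σ : Zhat × F2hat) (hσ : IsGT σ) (hne : σ ≠ (1, 1)) (n : ℕ) (hn : 0 < n)
    (h : gtPower σ n = (1, 1)) : ∃ τ, IsGT τ ∧ gtMul σ τ = gtMul τ (-1, 1) :=
  (gt_torsion σ hσ n hn h).resolve_left hne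

end Pool.Agent.Results.MP_2cc432_al.TorsionConjugate
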